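import Pool.Agent.H88.Hot1

open Set Real MeasureTheory Pool.Agent.H88.Hot

namespace Pool.Agent.Results.MP_332ffb_mp.Q1

def deg (G : QG) (v : Fin G.nv) : ℕ :=
  ∑ e, ((if G.src e = v then 1 else 0) + if G.tgt e = v then 1 else 0)

def Lead (lam : ℝ) (h h' : ℝ → ℝ) : Prop :=
  (∀ x ∈ Ici (0 : ℝ), HasDerivWithinAt h (h' x) (Ici 0) x ∧
    HasDerivWithinAt h' (-lam * h x) (Ici 0) x) ∧ MemLp h 2 (volume.restrict (Ici 0))

def OpenEig (G : QG) (n : Fin G.nv → ℕ) (lam : ℝ) : Prop :=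
  ∃ (f g : Fin G.ne → ℝ → ℝ) (h h' : (v : Fin G.nv) → Fin (n v) → ℝ → ℝ) (u : Fin G.nv → ℝ),
    ((∃ p ∈ G.Pts, f p.1 p.2 ≠ 0) ∨ ∃ v i, ∃ x ≥ 0, h v i x ≠ 0) ∧
    (∀ e, Ode lam (G.len e) (f e) (g e)) ∧ (∀ v i, Lead lam (h v i) (h' v i)) ∧
    (∀ e, f e 0 = u (G.src e) ∧ f e (G.len e) = u (G.tgt e)) ∧ (∀ v i, h v i 0 = u v) ∧
    ∀ v, (∑ e, if G.src e = v then g e 0 else 0) -
      (∑ e, if G.tgt e = v then g e (G.len e) else 0) + ∑ i, h' v i 0 = 0

lemma kill {ι F : Type} [Fintype ι] [Field F] (φ : GaussianInt →+* F) (z w : ι → GaussianInt)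
    (a b : ι → ℕ) (h : ∏ i, z i ^ a i * w i ^ b i = ∏ i, w i ^ a i * z i ^ b i) (j : ι)
    (h0 : φ (z j) = 0) (h1 : ∀ i, φ (w i) ≠ 0) (h2 : ∀ i, i ≠ j → φ (z i) ≠ 0) (hb : b j = 0) :
    a j = 0 := by
  by_contra ha
  have := congrArg φ h
  simp only [map_prod, map_mul, map_pow] at this
  rw [Finset.prod_eq_zero (Finset.mem_univ j) (by simp [h0, ha])] at this
  refine Finset.prod_ne_zero_iff.2 (fun i _ => mul_ne_zero (pow_ne_zero _ (h1 i)) ?_) this.symm
  by_cases hi : i = j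
  · simp [hi, hb]
  · exact pow_ne_zero _ (h2 i hi)

noncomputable def L : Fin 4 → ℝ := ![arctan (1 / 6), arctan 2, arctan 4, π / 2]

def z : Fin 4 → GaussianInt := ![⟨6, 1⟩, ⟨1, 2⟩, ⟨1, 4⟩, ⟨0, 1⟩]
def w : Fin 4 → GaussianInt := ![⟨6, -1⟩, ⟨1, -2⟩, ⟨1, -4⟩, ⟨0, -1⟩]

lemma sin_at (t : ℝ) : sin (arctan t) = t * cos (arctan t) := by
  rw [sin_arctan, cos_arctan]
  ring

lemma zw (i : Fin 4) : ∃ r : ℂ, (z i : ℂ) = r * Complex.exp (L i * Complex.I) ∧
    (w i : ℂ) = r * Complex.exp (-L i * Complex.I) := by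
  have key : ∀ t x : ℝ, ∃ r : ℂ, (x : ℂ) + x * t * Complex.I =
      r * Complex.exp (arctan t * Complex.I) ∧ (x : ℂ) - x * t * Complex.I =
      r * Complex.exp (-(arctan t : ℝ) * Complex.I) := fun t x => by
    have hc : ((cos (arctan t) : ℝ) : ℂ) ≠ 0 := by exact_mod_cast (cos_arctan_pos t).ne'
    refine ⟨x / (cos (arctan t) : ℝ), ?_, ?_⟩
    · rw [Complex.exp_mul_I, ← Complex.ofReal_cos, ← Complex.ofReal_sin, sin_at,
        Complex.ofReal_mul]
      field_simp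
    · rw [Complex.exp_mul_I, Complex.cos_neg, Complex.sin_neg, ← Complex.ofReal_cos,
        ← Complex.ofReal_sin, sin_at, Complex.ofReal_mul]
      field_simp
      ring
  fin_cases i
  · obtain ⟨r, h1, h2⟩ := key (1 / 6) 6
    exact ⟨r, by simpa [z, L, GaussianInt.toComplex_def'] using h1,
      by simpa [w, L, GaussianInt.toComplex_def', sub_eq_add_neg] using h2⟩
  · obtain ⟨r, h1, h2⟩ := key 2 1
    exact ⟨r, by simpa [z, L, GaussianInt.toComplex_def'] using h1,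
      by simpa [w, L, GaussianInt.toComplex_def', sub_eq_add_neg] using h2⟩
  · obtain ⟨r, h1, h2⟩ := key 4 1
    exact ⟨r, by simpa [z, L, GaussianInt.toComplex_def'] using h1,
      by simpa [w, L, GaussianInt.toComplex_def', sub_eq_add_neg] using h2⟩
  · refine ⟨1, by simp [z, L, GaussianInt.toComplex_def'], ?_⟩
    simp [w, L, GaussianInt.toComplex_def', Complex.exp_neg]

lemma both (p : ℕ) [Fact p.Prime] (r : ZMod p) (hr : r * r = ((-1 : ℤ) : ZMod p)) (g : Fin 4 → ℤ)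
    (h : ∏ i, z i ^ (g i).toNat * w i ^ (-g i).toNat =
      ∏ i, w i ^ (g i).toNat * z i ^ (-g i).toNat) (j : Fin 4)
    (h0 : ((z j).re : ZMod p) + (z j).im * r = 0) (h1 : ∀ i, ((w i).re : ZMod p) + (w i).im * r ≠ 0)
    (h2 : ∀ i, i ≠ j → ((z i).re : ZMod p) + (z i).im * r ≠ 0) : g j = 0 := by
  have hw : ∀ i, ((w i).re : ZMod p) + (w i).im * -r = (z i).re + (z i).im * r ∧
      ((z i).re : ZMod p) + (z i).im * -r = (w i).re + (w i).im * r := fun i => by
    fin_cases i <;> simp [z, w]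
  rcases le_total 0 (g j) with hg | hg
  · have := kill (Zsqrtd.lift ⟨r, hr⟩) z w _ _ h j h0 h1 h2 (by omega)
    omega
  · have := kill (Zsqrtd.lift ⟨-r, by rwa [neg_mul_neg]⟩) w z (fun i => (-g i).toNat)
      (fun i => (g i).toNat) (by simpa only [mul_comm] using h) j ((hw j).1.trans h0)
      (fun i => (hw i).2 ▸ h1 i) (fun i hi => (hw i).1 ▸ h2 i hi) (by omega)
    omega

instance p37 : Fact (Nat.Prime 37) := ⟨by norm_num⟩
instance p5 : Fact (Nat.Prime 5) := ⟨by norm_num⟩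
instance p17 : Fact (Nat.Prime 17) := ⟨by norm_num⟩

lemma indep : LinearIndependent ℤ L := by
  rw [Fintype.linearIndependent_iff]
  intro g hg
  have h : ∏ i, z i ^ (g i).toNat * w i ^ (-g i).toNat =
      ∏ i, w i ^ (g i).toNat * z i ^ (-g i).toNat := by
    choose r h1 h2 using zw
    have e : ∀ i, ((g i).toNat : ℂ) - ((-g i).toNat : ℂ) = g i := fun i => by
      exact_mod_cast Int.toNat_sub_toNat_neg (g i)
    have s : ∑ i, (g i : ℂ) * L i = 0 := by
      simp only [zsmul_eq_mul] at hg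
      exact_mod_cast hg
    have a : ∀ i, (z i : ℂ) ^ (g i).toNat * (w i : ℂ) ^ (-g i).toNat =
        (w i : ℂ) ^ (g i).toNat * (z i : ℂ) ^ (-g i).toNat *
          Complex.exp (g i * L i * (2 * Complex.I)) := fun i => by
      rw [h1, h2, ← e]
      simp only [mul_pow, ← Complex.exp_nat_mul]
      generalize ((g i).toNat : ℂ) = x
      generalize ((-g i).toNat : ℂ) = y
      have : Complex.exp (x * (L i * Complex.I)) * Complex.exp (y * (-L i * Complex.I)) =
          Complex.exp (x * (-L i * Complex.I)) * Complex.exp (y * (L i * Complex.I)) *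
            Complex.exp ((x - y) * L i * (2 * Complex.I)) := by
        simp only [← Complex.exp_add]
        congr 1
        ring
      linear_combination r i ^ (g i).toNat * r i ^ (-g i).toNat * this
    rw [← GaussianInt.toComplex_inj]
    simp only [map_prod, map_mul, map_pow]
    rw [Finset.prod_congr rfl fun i _ => a i, Finset.prod_mul_distrib, ← Complex.exp_sum,
      ← Finset.sum_mul, s]
    simp
  have g0 := both 37 31 (by decide) g h 0 (by decide) (by decide) (by decide)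
  have g1 := both 5 2 (by decide) g h 1 (by decide) (by decide) (by decide)
  have g2 := both 17 4 (by decide) g h 2 (by decide) (by decide) (by decide)
  have g3 : g 3 = 0 := by simpa [Fin.sum_univ_four, g0, g1, g2, L, pi_ne_zero] using hg
  intro i
  fin_cases i <;> assumption

noncomputable abbrev G : QG := ⟨5, 4, ![0, 1, 1, 0], ![1, 2, 3, 4], L⟩

theorem result : ∃ (G : QG) (n : Fin G.nv → ℕ), G.Good ∧ (∃ v, n v ≠ 0) ∧
    (∀ v, deg G v + n v ≠ 2) ∧ (∀ e, G.src e ≠ G.tgt e) ∧ LinearIndependent ℤ G.len ∧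
    ∃ lam, OpenEig G n lam := by
  have r : ∀ e, Relation.EqvGen (fun a b => ∃ e ∈ (univ : Set (Fin G.ne)),
      G.src e = a ∧ G.tgt e = b) (G.src e) (G.tgt e) := fun e => .rel _ _ ⟨e, trivial, rfl, rfl⟩
  have c : ∀ v, Relation.EqvGen (fun a b => ∃ e ∈ (univ : Set (Fin G.ne)),
      G.src e = a ∧ G.tgt e = b) 0 v := fun v => by
    fin_cases v
    · exact .refl _
    · exact r 0
    · exact .trans _ _ _ (r 0) (r 1)
    · exact .trans _ _ _ (r 0) (r 2)
    · exact r 3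
  have hp : ∀ e, 0 < L e := fun e => by
    fin_cases e <;> simp [L, pi_pos]
  obtain ⟨R, hR⟩ : ∃ R, R = 6 / cos (arctan (1 / 6)) := ⟨_, rfl⟩
  have hc := cos_arctan_pos (1 / 6)
  have hR1 : R * cos (arctan 6⁻¹) = 6 := by
    rw [hR, ← one_div]
    field_simp
  refine ⟨G, ![1, 0, 0, 0, 0], ⟨hp, fun v w => .trans _ _ _ (.symm _ _ (c v)) (c w)⟩,
    ⟨0, by decide⟩, by decide, by decide, indep, 1 ^ 2,
    fun e x => ![0, 1, 1, 0] e * cos (1 * x + 0) + ![R, 2, 4, -R] e * sin (1 * x + 0),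
    fun e x => 1 * (![R, 2, 4, -R] e * cos (1 * x + 0) - ![0, 1, 1, 0] e * sin (1 * x + 0)),
    fun _ _ _ => 0, fun _ _ _ => 0,
    ![0, 1, 5 * cos (arctan 2), 17 * cos (arctan 4), -R],
    Or.inl ⟨(1, 0), ⟨le_rfl, (hp 1).le⟩, by simp⟩, fun e => ode_trig _ _ _ _ _,
    fun v i => ⟨fun x _ => ⟨hasDerivWithinAt_const _ _ _, ?_⟩, MemLp.zero⟩, fun e => ?_,
    fun v i => ?_, fun v => ?_⟩
  · simpa using hasDerivWithinAt_const x (Ici (0 : ℝ)) (0 : ℝ)
  · fin_cases e <;> simp [L, sin_at] <;> linarith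
  · fin_cases v
    · rfl
    all_goals exact i.elim0
  · fin_cases v <;> simp [Fin.sum_univ_four, L, sin_at] <;> linarith

end Pool.Agent.Results.MP_332ffb_mp.Q1
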